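import Pool.Agent.W610.HY.Stm

/-!
# Project HY: part POLY
Approximation from above of a continuous function on the unit circle by real parts of polynomials.
-/

set_option autoImplicit false

namespace Pool.Agent.W342.HY.POLY

open Pool.Agent.W610.HY
open MeasureTheory Set Metric Filter Topology

theorem span_aux (q : C(AddCircle (1:ℝ), ℂ))
    (hq : q ∈ Submodule.span ℂ (range (@fourier (1:ℝ)))) :
    ∀ c : ℂ, ∃ p : Polynomial ℂ, ∀ x : AddCircle (1:ℝ),
      (p.eval (AddCircle.toCircle x : ℂ)).re = (c * q x).re := by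
  induction hq using Submodule.span_induction with
  | mem q hq =>
    obtain ⟨n, rfl⟩ := hq
    intro c
    rcases Int.eq_nat_or_neg n with ⟨m, hm | hm⟩
    · refine ⟨Polynomial.C c * Polynomial.X ^ m, fun x => ?_⟩
      have h1 : (fourier n x : ℂ) = (AddCircle.toCircle x : ℂ) ^ m := by
        rw [fourier_apply, AddCircle.toCircle_zsmul, hm, zpow_natCast]
        push_cast
        rfl
      rw [h1]
      simp
    · refine ⟨Polynomial.C ((starRingEnd ℂ) c) * Polynomial.X ^ m, fun x => ?_⟩
      have h1 : (fourier n x : ℂ) = (starRingEnd ℂ) ((AddCircle.toCircle x : ℂ) ^ m) := by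
        rw [hm, fourier_neg, fourier_apply, AddCircle.toCircle_zsmul, zpow_natCast]
        push_cast
        rfl
      rw [h1]
      have h2 : c * (starRingEnd ℂ) ((AddCircle.toCircle x : ℂ) ^ m)
          = (starRingEnd ℂ) ((starRingEnd ℂ) c * (AddCircle.toCircle x : ℂ) ^ m) := by
        rw [map_mul, Complex.conj_conj]
      rw [h2, Complex.conj_re]
      simp
  | zero =>
    intro c
    exact ⟨0, fun x => by simp⟩
  | add q r _ _ hq hr =>
    intro c
    obtain ⟨p1, h1⟩ := hq c
    obtain ⟨p2, h2⟩ := hr c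
    refine ⟨p1 + p2, fun x => ?_⟩
    rw [Polynomial.eval_add, Complex.add_re, h1 x, h2 x, ContinuousMap.add_apply, mul_add,
      Complex.add_re]
  | smul a q _ hq =>
    intro c
    obtain ⟨p1, h1⟩ := hq (c * a)
    refine ⟨p1, fun x => ?_⟩
    rw [h1 x, ContinuousMap.smul_apply, smul_eq_mul, mul_assoc]

theorem main : Pool.Agent.W610.HY.POLY := by
  intro f hf ε hε
  have hT : Fact ((0:ℝ) < 1) := ⟨one_pos⟩
  have hc : Continuous (fun x : AddCircle (1:ℝ) => ((AddCircle.toCircle x : Circle) : ℂ)) :=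
    (by fun_prop : Continuous (fun z : Circle => (z : ℂ))).comp AddCircle.continuous_toCircle
  have hn : ∀ x : AddCircle (1:ℝ), ‖((AddCircle.toCircle x : Circle) : ℂ)‖ = 1 :=
    fun x => Circle.norm_coe _
  have hf1 : Continuous (fun x : AddCircle (1:ℝ) => f ((AddCircle.toCircle x : Circle) : ℂ)) :=
    hf.comp_continuous hc (fun x => by
      rw [mem_sphere_zero_iff_norm]
      exact hn x)
  let g : C(AddCircle (1:ℝ), ℂ) :=
    ⟨fun x => ((f (AddCircle.toCircle x : ℂ) + ε / 2 : ℝ) : ℂ),
      Complex.continuous_ofReal.comp (hf1.add continuous_const)⟩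
  have hg : g ∈ (Submodule.span ℂ (range (@fourier (1:ℝ)))).topologicalClosure := by
    rw [span_fourier_closure_eq_top]
    exact Submodule.mem_top
  have hg2 : g ∈ closure ((Submodule.span ℂ (range (@fourier (1:ℝ))) :
      Submodule ℂ C(AddCircle (1:ℝ), ℂ)) : Set C(AddCircle (1:ℝ), ℂ)) := hg
  rw [Metric.mem_closure_iff] at hg2
  obtain ⟨q, hq, hd⟩ := hg2 (ε / 2) (half_pos hε)
  obtain ⟨p, hp⟩ := span_aux q hq 1
  refine ⟨p - Polynomial.C (Complex.I * ((p.eval 0).im : ℂ)), ?_, ?_⟩
  · simp
  · intro z hz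
    obtain ⟨x, hx⟩ := (AddCircle.homeomorphCircle (T := (1:ℝ)) one_ne_zero).surjective
      (⟨z, by simpa [Submonoid.unitSphere] using hz⟩ : Circle)
    have hx2 : (AddCircle.toCircle x : ℂ) = z := by
      have := congrArg (fun w : Circle => (w : ℂ)) hx
      simpa [AddCircle.homeomorphCircle_apply] using this
    have h3 : ((p - Polynomial.C (Complex.I * ((p.eval 0).im : ℂ))).eval z).re = (q x).re := by
      rw [Polynomial.eval_sub, Polynomial.eval_C, Complex.sub_re, ← hx2, hp x]
      simp
    rw [h3]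
    have h4 : ‖g x - q x‖ < ε / 2 := by
      rw [← dist_eq_norm]
      exact lt_of_le_of_lt (ContinuousMap.dist_apply_le_dist x) hd
    have h5 : |(g x - q x).re| < ε / 2 := lt_of_le_of_lt (Complex.abs_re_le_norm _) h4
    have h6 : (g x - q x).re = f z + ε / 2 - (q x).re := by
      rw [Complex.sub_re]
      have : g x = ((f (AddCircle.toCircle x : ℂ) + ε / 2 : ℝ) : ℂ) := rfl
      rw [this, Complex.ofReal_re, hx2]
    rw [h6, abs_lt] at h5
    constructor
    · linarith [h5.2]
    · linarith [h5.1]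

end Pool.Agent.W342.HY.POLY
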